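import Mathlib
import Pool.Agent.H845.LocCloneDefs
import Pool.Agent.Q16.LC.Exist

/-!
# MP_c0a48b_al: lattices of cardinality `ℵ₁` without infinite chains

Every lattice of cardinality at most `ℵ₁` all of whose chains are finite embeds into the lattice of
local clones on a countably infinite set. In particular the answer to Q1 is positive if the
continuum hypothesis holds.

The starting file `MP_c0a48b_al.RectanglePrinciple` shows that a positive answer to Q1 implies that
every subset of the plane is a countable intersection of countable unions of rectangles; this fails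
in the model obtained by adding `ℵ₂` Cohen reals to a model of the continuum hypothesis (Kunen).
Together with the result of this file: Q1 is independent of ZFC.

Sketch of the proof. Write the lattice `L` as the union of a chain of countable sublattices indexed
by `ω₁` and let `upl x`, `dnl x` be the finite lists of the successive projections of `x` to the
earlier sublattices, from above and from below. To every level `β` we attach a trace `ℕ → ℕ` which
is almost disjoint, in a uniform way, from the traces of the other levels, and histories which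
record more and more of the isomorphism type of the level. The branches of `u` are the sequences of
codes of elements below `u` (`Pool.Agent.Q16.LC.Branch`). The clone of `u` is generated by unary
operations on a set of stacks: one operation for every branch of `u`, and operations which do not
depend on `u` and which perform the deductions for the joins (`Pool.Agent.Q16.LC.Mon`).
-/

set_option autoImplicit false

namespace Pool.Agent.Results.MP_c0a48b_al.AlephOne

open Pool.H845.LocClone
open scoped Cardinal

/-- The statement of Q1, word for word as in `S02949`. -/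
def Question : Prop :=
  ∀ (LC : Set (∀ n : ℕ, Set ((Fin (n+1) → ℕ) → ℕ))),
      (∀ C : ∀ n : ℕ, Set ((Fin (n+1) → ℕ) → ℕ), C ∈ LC ↔
        ((∀ (n : ℕ) (i : Fin (n+1)), (fun x : Fin (n+1) → ℕ => x i) ∈ C n) ∧
         (∀ (n m : ℕ) (g : (Fin (n+1) → ℕ) → ℕ) (hs : Fin (n+1) → (Fin (m+1) → ℕ) → ℕ),
            g ∈ C n → (∀ i, hs i ∈ C m) →
              (fun x : Fin (m+1) → ℕ => g (fun i => hs i x)) ∈ C m) ∧
         (∀ (n : ℕ) (g : (Fin (n+1) → ℕ) → ℕ),
            (∀ F : Finset (Fin (n+1) → ℕ), ∃ h ∈ C n, ∀ x ∈ F, h x = g x) → g ∈ C n))) →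
      ∀ (L : Type) [Lattice L],
        (∃ N : ℕ, ∀ s : Set L, IsChain (· ≤ ·) s → s.encard ≤ (N : ℕ∞)) →
        Cardinal.mk L = Cardinal.continuum →
        ∃ f : L → (∀ n : ℕ, Set ((Fin (n+1) → ℕ) → ℕ)),
          Function.Injective f ∧ (∀ a, f a ∈ LC) ∧
          (∀ a b, f (a ⊓ b) = f a ⊓ f b) ∧
          (∀ a b, f a ≤ f (a ⊔ b) ∧ f b ≤ f (a ⊔ b)) ∧
          (∀ a b C, C ∈ LC → f a ≤ C → f b ≤ C → f (a ⊔ b) ≤ C)

/-- (1) Every lattice of cardinality at most `ℵ₁` all of whose chains are finite embeds into the
lattice of local clones. (2) The continuum hypothesis implies a positive answer to Q1. -/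
theorem result :
    (∀ (L : Type) [Lattice L], (∀ s : Set L, IsChain (· ≤ ·) s → s.Finite) →
      Cardinal.mk L ≤ ℵ₁ →
      ∃ f : L → Ops, IsLatticeEmbedding f) ∧
    ((𝔠 : Cardinal.{0}) = ℵ₁ → Question) := by
  refine ⟨fun L _ hc hL => Pool.Agent.Q16.LC.embedding hc hL, ?_⟩
  intro hCH LC hLC L _ hc hL
  obtain ⟨N, hN⟩ := hc
  obtain ⟨f, ⟨h1, h2, h3, h4⟩, h5⟩ := Pool.Agent.Q16.LC.embedding (L := L)
    (fun s hs => Set.finite_of_encard_le_coe (hN s hs)) (by rw [hL, hCH])
  exact ⟨f, h1, fun a => (hLC (f a)).2 (h2 a), h5, h3,
    fun a b C hC ha hb => h4 a b C ((hLC C).1 hC) ha hb⟩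

end Pool.Agent.Results.MP_c0a48b_al.AlephOne
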